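import Pool.Agent.N627.ND.Stm

/-!
# Project ND (helper627), part B: the splitter game
-/

set_option autoImplicit false
set_option linter.all false

namespace Pool.Agent.N862.ND

open Pool.Agent.N627.ND

variable {V : Type}

theorem rk_bot (R s : ℕ) : ∀ m : ℕ, Rk R s m (⊥ : SimpleGraph V)
  | 0 => rfl
  | m + 1 => by
    intro c
    refine ⟨fun _ => c, ?_⟩
    have h : del (ball (⊥ : SimpleGraph V) c R) (fun _ : Fin s => c) = ⊥ := by
      ext x y
      constructor
      · intro h
        exact h.1.1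
      · intro h
        exact absurd h (by simp)
    rw [h]
    exact rk_bot R s m

theorem lazy (H : SimpleGraph V) (R : ℕ) (u v : V) (h : H.edist u v ≤ R) (hv : ∃ y, H.Adj v y) :
    ∃ p : ℕ → V, p 0 = u ∧ p R = v ∧ (∀ a, p a = p (a + 1) ∨ H.Adj (p a) (p (a + 1))) ∧
      ∀ a, ∃ y, H.Adj (p a) y := by
  have hne : H.edist u v ≠ ⊤ := ne_top_of_le_ne_top (by simp) h
  obtain ⟨W, hW⟩ := SimpleGraph.exists_walk_of_edist_ne_top hne
  have hl : W.length ≤ R := by
    rw [← hW] at h
    exact_mod_cast h
  refine ⟨fun a => W.getVert a, by simp, W.getVert_of_length_le hl, fun a => ?_, fun a => ?_⟩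
  · by_cases ha : a < W.length
    · right
      exact W.adj_getVert_succ ha
    · left
      dsimp only
      rw [W.getVert_of_length_le (by omega), W.getVert_of_length_le (by omega)]
  · by_cases ha : a < W.length
    · exact ⟨_, W.adj_getVert_succ ha⟩
    · dsimp only
      rw [W.getVert_of_length_le (by omega)]
      exact hv

theorem has_edge (H : SimpleGraph V) (R s m : ℕ) (c : V)
    (h : ∀ w : Fin s → V, ¬ Rk R s m (del (ball H c R) w)) : ∃ y, H.Adj c y := by
  by_contra hcon
  push Not at hcon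
  apply h (fun _ => c)
  have h1 : del (ball H c R) (fun _ : Fin s => c) = ⊥ := by
    ext x y
    constructor
    · rintro ⟨⟨h1, h2, h3⟩, -⟩
      exfalso
      have hne : H.edist c x ≠ ⊤ := ne_top_of_le_ne_top (by simp) h2
      obtain ⟨W, hW⟩ := SimpleGraph.exists_walk_of_edist_ne_top hne
      cases W with
      | nil => exact hcon _ h1
      | cons h' _ => exact hcon _ h'
    · intro h
      exact absurd h (by simp)
  rw [h1]
  exact rk_bot R s m

/-- the state after `i` rounds -/
structure St (G : SimpleGraph V) (R i : ℕ) (c : ℕ → V) (Gs : ℕ → SimpleGraph V)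
    (P : ℕ → ℕ → ℕ → V) : Prop where
  mono : ∀ j k, j ≤ k → k ≤ i → Gs k ≤ Gs j
  zero : ∀ j, j ≤ i → Gs j ≤ G
  near : ∀ j, j < i → ∀ x y, (Gs (j + 1)).Adj x y → (Gs j).edist (c j) x ≤ R
  walk : ∀ j k, j < k → k < i → P j k 0 = c j ∧ P j k R = c k ∧
    ∀ a, a < R → P j k a = P j k (a + 1) ∨ G.Adj (P j k a) (P j k (a + 1))
  edge : ∀ j k, j < k → k < i → ∀ a, a ≤ R → ∃ y, (Gs j).Adj (P j k a) y
  iso : ∀ j k, j < k → k < i → ∀ a, a ≤ R → ∀ y, ¬ (Gs (k + 1)).Adj (P j k a) y

theorem step (G : SimpleGraph V) (R l s : ℕ) (hs : s = l * (R + 1) + 1) (i : ℕ) (hi : i < l)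
    (c : ℕ → V) (Gs : ℕ → SimpleGraph V) (P : ℕ → ℕ → ℕ → V) (hS : St G R i c Gs P)
    (hR : ¬ Rk R s (l - i) (Gs i)) :
    ∃ c' Gs' P', St G R (i + 1) c' Gs' P' ∧ ¬ Rk R s (l - (i + 1)) (Gs' (i + 1)) := by
  obtain ⟨m, hm⟩ : ∃ m, l - i = m + 1 := ⟨l - i - 1, by omega⟩
  have hm' : l - (i + 1) = m := by omega
  rw [hm] at hR
  rw [hm']
  have hR' : ∃ c : V, ∀ w : Fin s → V, ¬ Rk R s m (del (ball (Gs i) c R) w) := by
    by_contra hcon
    push Not at hcon
    exact hR hcon
  obtain ⟨ci, hci⟩ := hR'
  have hedge : ∃ y, (Gs i).Adj ci y := has_edge _ R s m ci hci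
  have hp : ∀ j, ∃ p : ℕ → V, j < i → (p 0 = c j ∧ p R = ci ∧
      (∀ a, p a = p (a + 1) ∨ (Gs j).Adj (p a) (p (a + 1))) ∧ ∀ a, ∃ y, (Gs j).Adj (p a) y) := by
    intro j
    by_cases hj : j < i
    · obtain ⟨y, hy⟩ := hedge
      have h1 : (Gs (j + 1)).Adj ci y := hS.mono (j + 1) i (by omega) le_rfl hy
      have h2 := hS.near j hj ci y h1
      obtain ⟨p, hp⟩ := lazy (Gs j) R (c j) ci h2 ⟨y, hS.mono j i hj.le le_rfl hy⟩
      exact ⟨p, fun _ => hp⟩
    · exact ⟨fun _ => ci, fun h => absurd h hj⟩
  choose p hp using hp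
  let w : Fin s → V := fun t => if (t : ℕ) = 0 then ci else
    p (((t : ℕ) - 1) / (R + 1)) (((t : ℕ) - 1) % (R + 1))
  let H' : SimpleGraph V := del (ball (Gs i) ci R) w
  have hH' : H' ≤ Gs i := fun x y h => h.1.1
  have hiso : ∀ j, j < i → ∀ a, a ≤ R → ∀ y, ¬ H'.Adj (p j a) y := by
    intro j hj a ha y h
    have h1 := h.2.1
    have hlt : 1 + (j * (R + 1) + a) < s := by
      have : (j + 1) * (R + 1) ≤ l * (R + 1) := Nat.mul_le_mul_right _ (by omega)
      have h3 : (j + 1) * (R + 1) = j * (R + 1) + (R + 1) := by ring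
      omega
    have h2 := h1 ⟨1 + (j * (R + 1) + a), hlt⟩
    apply h2
    have h4 : (j * (R + 1) + a) / (R + 1) = j := by
      rw [mul_comm, Nat.mul_add_div (by omega), Nat.div_eq_of_lt (by omega)]
      simp
    have h5 : (j * (R + 1) + a) % (R + 1) = a := by
      rw [mul_comm, Nat.mul_add_mod]
      exact Nat.mod_eq_of_lt (by omega)
    simp only [w]
    rw [if_neg (by omega)]
    have h6 : 1 + (j * (R + 1) + a) - 1 = j * (R + 1) + a := by omega
    rw [h6, h4, h5]
  refine ⟨fun k => if k < i then c k else ci, fun k => if k ≤ i then Gs k else H',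
    fun j k => if k < i then P j k else p j, ⟨?_, ?_, ?_, ?_, ?_, ?_⟩, ?_⟩
  · intro j k hjk hk
    by_cases h1 : k ≤ i
    · have h2 : j ≤ i := by omega
      simp only [h1, h2, if_true]
      exact hS.mono j k hjk h1
    · by_cases h2 : j ≤ i
      · simp only [h1, h2, if_true, if_false]
        exact hH'.trans (hS.mono j i h2 le_rfl)
      · simp only [h1, h2, if_false]
        exact le_rfl
  · intro j hj
    by_cases h1 : j ≤ i
    · simp only [h1, if_true]
      exact hS.zero j h1
    · simp only [h1, if_false]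
      exact hH'.trans (hS.zero i le_rfl)
  · intro j hj x y
    by_cases h1 : j < i
    · have h2 : j + 1 ≤ i := h1
      have h3 : j ≤ i := h1.le
      simp only [h1, h2, h3, if_true]
      exact hS.near j h1 x y
    · have h2 : ¬ j + 1 ≤ i := h1
      have h3 : j = i := by omega
      subst h3
      simp only [h1, h2, le_refl, if_true, if_false]
      intro h
      exact h.1.2.1
  · intro j k hjk hk
    by_cases h1 : k < i
    · have h2 : j < i := by omega
      simp only [h1, h2, if_true]
      exact hS.walk j k hjk h1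
    · have h2 : k = i := by omega
      subst h2
      simp only [hjk, h1, if_true, if_false]
      obtain ⟨h3, h4, h5, h6⟩ := hp j hjk
      refine ⟨h3, h4, fun a ha => ?_⟩
      rcases h5 a with h7 | h7
      · exact Or.inl h7
      · exact Or.inr (hS.zero j hjk.le h7)
  · intro j k hjk hk a ha
    by_cases h1 : k < i
    · have h2 : j ≤ i := by omega
      simp only [h1, h2, if_true]
      exact hS.edge j k hjk h1 a ha
    · have h2 : k = i := by omega
      subst h2
      have h3 : j ≤ k := hjk.le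
      simp only [h3, h1, if_true, if_false]
      exact (hp j hjk).2.2.2 a
  · intro j k hjk hk a ha y
    by_cases h1 : k < i
    · have h2 : k + 1 ≤ i := h1
      simp only [h1, h2, if_true]
      exact hS.iso j k hjk h1 a ha y
    · have h2 : k = i := by omega
      subst h2
      have h3 : ¬ k + 1 ≤ k := by omega
      simp only [h3, h1, if_false]
      exact hiso j hjk a ha y
  · have h3 : ¬ i + 1 ≤ i := by omega
    simp only [h3, if_false]
    exact hci w

theorem b : S_B := by
  intro μ R
  refine ⟨μ R * (R + 1) + 1, μ R, fun V G hE => ?_⟩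
  by_contra hcon
  rcases isEmpty_or_nonempty V with hV | ⟨⟨v0⟩⟩
  · apply hcon
    have : G = ⊥ := by
      ext x
      exact hV.elim x
    rw [this]
    exact rk_bot _ _ _
  · have key : ∀ i, i ≤ μ R → ∃ c Gs P, St G R i c Gs P ∧
        ¬ Rk R (μ R * (R + 1) + 1) (μ R - i) (Gs i) := by
      intro i
      induction i with
      | zero =>
        intro _
        refine ⟨fun _ => v0, fun _ => G, fun _ _ _ => v0, ⟨?_, ?_, ?_, ?_, ?_, ?_⟩, by simpa using hcon⟩
        · intro j k _ _
          exact le_rfl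
        · intro j _
          exact le_rfl
        · intro j hj
          omega
        · intro j k _ hk
          omega
        · intro j k _ hk
          omega
        · intro j k _ hk
          omega
      | succ i ih =>
        intro hi
        obtain ⟨c, Gs, P, h1, h2⟩ := ih (by omega)
        exact step G R (μ R) _ rfl i (by omega) c Gs P h1 h2
    obtain ⟨c, Gs, P, hS, -⟩ := key (μ R) le_rfl
    apply hE R
    refine ⟨fun i => c i, fun i j a => P i j a, fun i j hij => hS.walk i j hij j.2, ?_⟩
    intro i j k m hij hjk hkm a b ha hb heq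
    obtain ⟨y, hy⟩ := hS.edge k m hkm m.2 b hb
    apply hS.iso i j hij j.2 a ha y
    dsimp only at heq
    rw [heq]
    exact hS.mono (j + 1) k hjk k.2.le hy

end Pool.Agent.N862.ND
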